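import Pool.Agent.Lib.MP_53fdf7_co.Base

set_option autoImplicit false

namespace Pool.Agent.Results.MP_53fdf7_co.KOrbitAllRanks

open Pool.Agent.Lib.MP_53fdf7_co

/-- For every `k ≥ 1` and every `n ≥ 3` there is an abstract `n`-polytope whose automorphism
group has exactly `k` orbits on flags and none of whose sections of rank `2` is a digon. -/
theorem result : ∀ k : ℕ, 1 ≤ k → ∀ n : ℕ, 3 ≤ n →
    ∃ (P : Type) (_ : PartialOrder P) (rk : P → ℤ),
      IsAbstractPolytope n P rk ∧ IsKOrbit k P ∧ NoDigon P rk :=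
  fun k hk n hn => main k hk n hn

end Pool.Agent.Results.MP_53fdf7_co.KOrbitAllRanks
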